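import Pool.Agent.Work.MP_6d7a54_an.NF.B_KS
import Pool.Agent.Work.MP_6d7a54_an.NF.C_ACF
import Pool.Agent.Work.MP_6d7a54_an.NF.I_CL
import Pool.Agent.Work.MP_6d7a54_an.NF.I_Cen
import Pool.Agent.Work.MP_6d7a54_an.NF.I_Conf
import Pool.Agent.Work.MP_6d7a54_an.NF.I_DF
import Pool.Agent.Work.MP_6d7a54_an.NF.I_Diag
import Pool.Agent.Work.MP_6d7a54_an.NF.I_GB
import Pool.Agent.Work.MP_6d7a54_an.NF.I_LD
import Pool.Agent.Work.MP_6d7a54_an.NF.I_Mx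
import Pool.Agent.Work.MP_6d7a54_an.NF.I_Rad
import Pool.Agent.Work.MP_6d7a54_an.NF.I_RadF
import Pool.Agent.Work.MP_6d7a54_an.NF.I_Schw
import Pool.Agent.Work.MP_6d7a54_an.NF.I_Seid
import Pool.Agent.Work.MP_6d7a54_an.NF.I_TTm
import Pool.Agent.Work.MP_6d7a54_an.NF.I_avg
import Pool.Agent.Work.MP_6d7a54_an.NF.I_crit
import Pool.Agent.Work.MP_6d7a54_an.NF.I_ev
import Pool.Agent.Work.MP_6d7a54_an.NF.I_fin
import Pool.Agent.Work.MP_6d7a54_an.NF.I_ideal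
import Pool.Agent.Work.MP_6d7a54_an.NF.I_lo
import Pool.Agent.Work.MP_6d7a54_an.NF.I_lo2
import Pool.Agent.Work.MP_6d7a54_an.NF.I_prime
import Pool.Agent.Work.MP_6d7a54_an.NF.I_s1
import Pool.Agent.Work.MP_6d7a54_an.NF.I_s3
import Pool.Agent.Work.MP_6d7a54_an.NF.I_s7
import Pool.Agent.Work.MP_6d7a54_an.NF.I_s8
import Pool.Agent.Work.MP_6d7a54_an.NG.P_AC2
import Pool.Agent.Work.MP_6d7a54_an.NG.P_Adj
import Pool.Agent.Work.MP_6d7a54_an.NG.P_Adp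
import Pool.Agent.Work.MP_6d7a54_an.NG.P_Al
import Pool.Agent.Work.MP_6d7a54_an.NG.P_Av
import Pool.Agent.Work.MP_6d7a54_an.NG.P_Cpr
import Pool.Agent.Work.MP_6d7a54_an.NG.P_Cyc
import Pool.Agent.Work.MP_6d7a54_an.NG.P_Dom
import Pool.Agent.Work.MP_6d7a54_an.NG.P_EF
import Pool.Agent.Work.MP_6d7a54_an.NG.P_EL
import Pool.Agent.Work.MP_6d7a54_an.NG.P_EP
import Pool.Agent.Work.MP_6d7a54_an.NG.P_ET
import Pool.Agent.Work.MP_6d7a54_an.NG.P_Ex0
import Pool.Agent.Work.MP_6d7a54_an.NG.P_Ext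
import Pool.Agent.Work.MP_6d7a54_an.NG.P_Fib
import Pool.Agent.Work.MP_6d7a54_an.NG.P_Fr
import Pool.Agent.Work.MP_6d7a54_an.NG.P_Gc1
import Pool.Agent.Work.MP_6d7a54_an.NG.P_Gcd
import Pool.Agent.Work.MP_6d7a54_an.NG.P_GcdD
import Pool.Agent.Work.MP_6d7a54_an.NG.P_Geo
import Pool.Agent.Work.MP_6d7a54_an.NG.P_Grow
import Pool.Agent.Work.MP_6d7a54_an.NG.P_Idl
import Pool.Agent.Work.MP_6d7a54_an.NG.P_Int
import Pool.Agent.Work.MP_6d7a54_an.NG.P_IntH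
import Pool.Agent.Work.MP_6d7a54_an.NG.P_JH
import Pool.Agent.Work.MP_6d7a54_an.NG.P_KSV
import Pool.Agent.Work.MP_6d7a54_an.NG.P_LB
import Pool.Agent.Work.MP_6d7a54_an.NG.P_LI
import Pool.Agent.Work.MP_6d7a54_an.NG.P_Lat
import Pool.Agent.Work.MP_6d7a54_an.NG.P_Lcr
import Pool.Agent.Work.MP_6d7a54_an.NG.P_MainN
import Pool.Agent.Work.MP_6d7a54_an.NG.P_Many
import Pool.Agent.Work.MP_6d7a54_an.NG.P_Mnr
import Pool.Agent.Work.MP_6d7a54_an.NG.P_NC0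
import Pool.Agent.Work.MP_6d7a54_an.NG.P_NJ
import Pool.Agent.Work.MP_6d7a54_an.NG.P_NevE
import Pool.Agent.Work.MP_6d7a54_an.NG.P_Nm
import Pool.Agent.Work.MP_6d7a54_an.NG.P_Nrm
import Pool.Agent.Work.MP_6d7a54_an.NG.P_PiD
import Pool.Agent.Work.MP_6d7a54_an.NG.P_Sar1
import Pool.Agent.Work.MP_6d7a54_an.NG.P_Sard
import Pool.Agent.Work.MP_6d7a54_an.NG.P_Srt
import Pool.Agent.Work.MP_6d7a54_an.NG.P_Strip
import Pool.Agent.Work.MP_6d7a54_an.NG.P_Sub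
import Pool.Agent.Work.MP_6d7a54_an.NG.P_T5
import Pool.Agent.Work.MP_6d7a54_an.NG.P_T5R
import Pool.Agent.Work.MP_6d7a54_an.NG.P_Tr
import Pool.Agent.Work.MP_6d7a54_an.NG.P_Un
import Pool.Agent.Work.MP_6d7a54_an.NG.P_Uni
import Pool.Agent.Work.MP_6d7a54_an.NG.P_Up
import Pool.Agent.Work.MP_6d7a54_an.NG.P_VB
import Pool.Agent.Work.MP_6d7a54_an.NG.P_WH
import Pool.Agent.Work.MP_6d7a54_an.NG.P_Wr
import Pool.Agent.Work.MP_6d7a54_an.NG.P_WrD
import Pool.Agent.Work.MP_6d7a54_an.NG.P_WrF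
import Pool.Agent.Work.MP_6d7a54_an.NG.P_WrN
import Pool.Agent.Work.MP_6d7a54_an.NG.P_qd
import Pool.Agent.Work.MP_6d7a54_an.NF.StmtsC

/-!
# The Kobayashi-Royden metric of the complement of a normal crossing hypersurface with at least
`n + 1` components

Partial answer to Q1 of MP_6d7a54_an, in all dimensions `n`.
-/

namespace Pool.Agent.Results.MP_6d7a54_an.ManyComponents

open MvPolynomial Pool.Agent.Work.MP_6d7a54_an Pool.Agent.Work.MP_6d7a54_an.NG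

/-- Let `X` be a hypersurface of degree at least `n + 2` in the projective space of dimension `n`
with only normal crossing singularities and with at least `n + 1` irreducible components (that is,
its equation is a product of `n + 1` nonconstant factors). Then the infinitesimal Kobayashi
pseudometric of the complement of `X` is positive on all nonzero tangent vectors at every point
outside a proper hypersurface. -/
theorem result (n d : ℕ) (X : MvPolynomial (Fin (n + 1)) ℂ) (hX : X.IsHomogeneous d)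
    (hd : n + 2 ≤ d) (hnc : NormalCrossing X)
    (h : ∃ P : Fin (n + 1) → MvPolynomial (Fin (n + 1)) ℂ, (∀ a, ¬ IsUnit (P a)) ∧
      X = ∏ a, P a) :
    ∃ (Q : MvPolynomial (Fin (n + 1)) ℂ) (N : ℕ), Q ≠ 0 ∧ Q.IsHomogeneous N ∧
      ∀ w ∈ complementCone X, eval w Q ≠ 0 → ∀ v : Fin (n + 1) → ℂ, (∀ c : ℂ, v ≠ c • w) →
        0 < kobayashiRoyden (complementCone X) w v := by
  have h_WH : S_WH := WH_proof
  have hNF_Mx : NF.S_Mx := NF.Mx_proof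
  have hNF_Conf : NF.S_Conf := NF.Conf_proof hNF_Mx
  have hNF_ev : NF.S_ev := NF.ev_proof
  have hNF_GB : NF.S_GB := NF.GB_proof
  have hNF_crit : NF.S_crit := NF.crit_proof hNF_Mx
  have hNF_ideal : NF.S_ideal := NF.ideal_proof hNF_Mx hNF_ev hNF_GB hNF_crit
  have hNF_CL : NF.S_CL := NF.CL_proof
  have hNF_avg : NF.S_avg := NF.avg_proof
  have hNF_prime : NF.S_prime := NF.prime_proof hNF_Mx hNF_GB hNF_CL hNF_avg
  have hNF_Diag : NF.S_Diag := NF.Diag_proof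
  have hNF_Cen : NF.S_Cen := NF.Cen_proof hNF_Diag hNF_Mx hNF_GB hNF_CL hNF_avg
  have hNF_Schw : NF.S_Schw := NF.Schw_proof
  have hNF_TTm : NF.S_TTm := NF.TTm_proof
  have hNF_LD : NF.S_LD := NF.LD_proof
  have hNF_RadF : NF.S_RadF := NF.RadF_proof hNF_CL hNF_LD
  have hNF_Rad : NF.S_Rad := NF.Rad_proof hNF_Diag hNF_Mx hNF_ev hNF_GB hNF_Schw hNF_TTm hNF_RadF
  have hNF_s1 : NF.S_s1 := NF.s1_proof hNF_Mx
  have hNF_s3 : NF.S_s3 := NF.s3_proof hNF_Mx hNF_ev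
  have hNF_s7 : NF.S_s7 := NF.s7_proof hNF_Mx hNF_ev hNF_GB
  have hNF_s8 : NF.S_s8 := NF.s8_proof hNF_Mx
  have hNF_lo : NF.S_lo := NF.lo_proof hNF_Mx hNF_ev
  have hNF_fin : NF.S_fin := NF.fin_proof hNF_Mx hNF_ev hNF_ideal
  have hNF_lo2 : NF.S_lo2 := NF.lo2_proof hNF_Mx hNF_ev hNF_fin hNF_lo
  have hNF_DF : NF.S_DF := NF.DF_proof
  have hNF_Seid : NF.S_Seid := NF.Seid_proof
  have h_AC2 : S_AC2 := AC2_proof hNF_DF hNF_Seid
  have h_EF : S_EF := EF_proof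
  have h_EP : S_EP := EP_proof hNF_Mx
  have h_EL : S_EL := EL_proof hNF_Mx hNF_ev hNF_fin hNF_lo
  have h_ET : S_ET := ET_proof hNF_Mx
  have h_NevE : S_NevE := NevE_proof hNF_Conf hNF_ideal hNF_prime hNF_Cen hNF_Rad hNF_s1 hNF_s3 hNF_s7 hNF_s8 hNF_lo hNF_lo2 h_AC2 h_EF h_EP h_EL h_ET
  have hNF_KS : NF.S_KS := NF.KS_proof
  have h_KSV : S_KSV := KSV_proof hNF_KS
  have h_VB : S_VB := VB_proof
  have h_Int : S_Int := Int_proof
  have h_Nrm : S_Nrm := Nrm_proof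
  have h_Nm : S_Nm := Nm_proof h_Int h_Nrm
  have h_JH : S_JH := JH_proof
  have h_NJ : S_NJ := NJ_proof h_Int h_Nm h_WH h_JH
  have h_Ex0 : S_Ex0 := Ex0_proof
  have h_Sar1 : S_Sar1 := Sar1_proof h_Ex0
  have h_Mnr : S_Mnr := Mnr_proof
  have h_Sard : S_Sard := Sard_proof h_Sar1 h_Mnr
  have h_Sub : S_Sub := Sub_proof
  have h_Strip : S_Strip := Strip_proof
  have h_Fib : S_Fib := Fib_proof h_Int
  have h_Av : S_Av := Av_proof
  have h_qd : S_qd := qd_proof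
  have h_Adj : S_Adj := Adj_proof
  have h_Lcr : S_Lcr := Lcr_proof h_Ex0 h_Adj
  have h_PiD : S_PiD := PiD_proof
  have h_Cpr : S_Cpr := Cpr_proof h_Int h_Nm h_Sub h_Strip h_Fib h_Av h_qd h_Lcr h_PiD
  have h_Idl : S_Idl := Idl_proof
  have h_Fr : S_Fr := Fr_proof
  have h_Wr : S_Wr := Wr_proof
  have h_LI : S_LI := LI_proof
  have h_WrN : S_WrN := WrN_proof h_Fr h_Wr h_LI
  have h_WrF : S_WrF := WrF_proof
  have h_WrD : S_WrD := WrD_proof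
  have h_Srt : S_Srt := Srt_proof
  have h_Grow : S_Grow := Grow_proof
  have h_Adp : S_Adp := Adp_proof
  have h_Gc1 : S_Gc1 := Gc1_proof h_Grow h_Adp
  have h_GcdD : S_GcdD := GcdD_proof h_VB h_WrN h_WrF h_WrD h_Srt h_Gc1
  have h_Gcd : S_Gcd := Gcd_proof h_Idl h_GcdD h_VB
  have h_Uni : S_Uni := Uni_proof
  have h_Lat : S_Lat := Lat_proof h_Uni
  have h_Cyc : S_Cyc := Cyc_proof
  have h_Dom : S_Dom := Dom_proof h_VB h_Cyc
  have h_Ext : S_Ext := Ext_proof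
  have h_Un : S_Un := Un_proof
  have h_Al : S_Al := Al_proof h_VB h_Dom h_Ext h_Un
  have h_IntH : S_IntH := IntH_proof h_Int
  have h_Up : S_Up := Up_proof h_VB h_IntH
  have h_LB : S_LB := LB_proof h_VB h_Al h_Up
  have h_T5R : S_T5R := T5R_proof h_VB h_Int h_NJ h_Sard h_Cpr h_Gcd h_Lat h_LB
  have h_T5 : S_T5 := T5_proof h_KSV h_T5R
  have hNF_ACF : NF.S_ACF := NF.ACF_proof
  have h_NC0 : S_NC0 := NC0_proof
  have h_Tr : S_Tr := Tr_proof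
  have h_Geo : S_Geo := Geo_proof
  have h_MainN : S_MainN := MainN_proof h_NevE h_T5 hNF_ACF h_NC0 h_Tr h_Geo
  exact Many_proof h_WH h_MainN n d X hX hd hnc h

end Pool.Agent.Results.MP_6d7a54_an.ManyComponents
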