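import Pool.Agent.Work.MP_6d7a54_an.NM.Final

/-!
# The Kobayashi-Royden metric of the complement of a sum of powers, in every dimension

Partial answer to Q1 of MP_6d7a54_an for hypersurfaces with any number of components.
-/

set_option autoImplicit false

namespace Pool.Agent.Results.MP_6d7a54_an.SumsOfPowers

open MvPolynomial Pool.Agent.Work.MP_6d7a54_an.NG

/-- the product of all nonempty partial sums of `G_0, ..., G_N` -/
noncomputable def exceptional {n N : ℕ} (G : Fin (N + 1) → MvPolynomial (Fin (n + 1)) ℂ) :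
    MvPolynomial (Fin (n + 1)) ℂ :=
  ∏ I ∈ (Finset.univ : Finset (Finset (Fin (N + 1)))).filter Finset.Nonempty, ∑ i ∈ I, G i

/-- Let `G_0, ..., G_N` be forms of one degree `D ≥ 1` in `n + 1` variables without common zero,
`G_i = U_i ∏_k f_(i,k)^(m(i,k))`, and let `X` be a form such that the `U_i` and the sum
`G_0 + ... + G_N` divide powers of `X`. Let `J` be a set of indices `i` with `f_(i,k) = 1` for all
`k`; let `m(i,k) ≥ μ_i ≥ 1` for `i ∉ J`, and let `N * ∑_(i ∉ J) 1 / μ_i < 1`. Suppose that no nonempty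
partial sum of the `G_i` is the zero form. Then the infinitesimal Kobayashi pseudometric of the
complement of `X = 0` in the projective space of dimension `n` is positive on all nonzero tangent
vectors at all points at which no nonempty partial sum of the `G_i` vanishes. -/
theorem result (n N K D d : ℕ) (X : MvPolynomial (Fin (n + 1)) ℂ)
    (G U : Fin (N + 1) → MvPolynomial (Fin (n + 1)) ℂ)
    (f : Fin (N + 1) → Fin K → MvPolynomial (Fin (n + 1)) ℂ) (m : Fin (N + 1) → Fin K → ℕ)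
    (μ : Fin (N + 1) → ℕ) (J : Finset (Fin (N + 1))) (hD : 1 ≤ D) (hX : X.IsHomogeneous d)
    (hG : ∀ i, (G i).IsHomogeneous D)
    (h0 : ∀ w : Fin (n + 1) → ℂ, (∀ i, eval w (G i) = 0) → w = 0)
    (hU : ∀ i, ∃ e, U i ∣ X ^ e) (hF : ∃ e, (∑ i, G i) ∣ X ^ e)
    (hfac : ∀ i, G i = U i * ∏ k, f i k ^ m i k) (hJ : ∀ i ∈ J, ∀ k, f i k = 1)
    (hm : ∀ i, i ∉ J → 1 ≤ μ i ∧ ∀ k, μ i ≤ m i k)
    (hμ : (N : ℝ) * ∑ i ∈ Jᶜ, 1 / (μ i : ℝ) < 1)
    (hsum : ∀ I : Finset (Fin (N + 1)), I.Nonempty → ∑ i ∈ I, G i ≠ 0) :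
    (exceptional G ≠ 0 ∧ ∃ M : ℕ, (exceptional G).IsHomogeneous M) ∧
    ∀ w ∈ complementCone X, eval w (exceptional G) ≠ 0 →
      ∀ v : Fin (n + 1) → ℂ, (∀ c : ℂ, v ≠ c • w) →
        0 < kobayashiRoyden (complementCone X) w v := by
  classical
  have hex : exceptional G = ∏ I ∈ (Finset.univ : Finset (Finset (Fin (N + 1)))).filter
      Finset.Nonempty, ∑ i ∈ I, G i := by
    unfold exceptional
    congr
  rw [hex]
  refine ⟨⟨?_, _, IsHomogeneous.prod _ _ (fun _ => D) fun I _ =>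
    IsHomogeneous.sum _ _ _ fun i _ => hG i⟩, ?_⟩
  · rw [Finset.prod_ne_zero_iff]
    intro I hI
    exact hsum I (Finset.mem_filter.1 hI).2
  · intro w hw hQ v hv
    rw [map_prod, Finset.prod_ne_zero_iff] at hQ
    obtain ⟨M, hM⟩ := Pool.Agent.Work.MP_6d7a54_an.NM.bounded n N K D d X G U f m μ J hD hX hG h0
      hfac hJ hm hU hF hμ w hw.1 hw.2
      (fun I hI => hQ I (Finset.mem_filter.2 ⟨Finset.mem_univ _, hI⟩)) v hv
    refine Pool.Agent.Work.MP_6d7a54_an.NM.BFinx.pos_of_bound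
      (Pool.Agent.Work.MP_6d7a54_an.NM.BFinx.cone_open X) hw (M := M)
      fun R f' c hf hfΩ hf0 hder => ?_
    exact hM R f' c hf (fun z hz => (hfΩ z hz).2) hf0 hder

end Pool.Agent.Results.MP_6d7a54_an.SumsOfPowers
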